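import Pool.Agent.Lib.H50R.Main

/-!
# Symmetric rendezvous on `n` locations: `AW(n)` is not asymptotically optimal

Definitions (in `Pool.Agent.Lib.RdvTour.Defs` and `Pool.Agent.Lib.RdvTour.TourDefs`):

* a strategy is given by the probability law `μ` on `ℕ → Fin n` of the sequence of labels used
  (time `t` is day `t + 1`);
* `expTime n μ` is the expected meeting time `𝔼[T]` when both players use `μ` independently and the two
  private labellings are independent and uniform;
* `value n` is `R_n`, the infimum of `expTime n μ` over all probability laws `μ`;
* `tourLaw m D` is the strategy on `n = m + 2` locations which starts at a uniformly random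
  location and in each block of `n - 1 = m + 1` days either stays or visits the other `n - 1`
  locations in uniformly random order (independently for all blocks), where the sequence of the
  decisions (`true` for a tour) has law `D` and is independent of the locations. If `D` makes the
  decisions independent and equal to `true` with probability `p`, this is `AW(n)` with
  parameter `p`.

For all large `n` the value of the game is at most `0.82883 n`, while every strategy `tourLaw m D` has
`𝔼[T] ≥ 0.82888 n`.
-/

set_option autoImplicit false

open MeasureTheory
open scoped ENNReal

namespace Pool.Agent.Results.MP_5ce2f9_pr.AsymptoticallyNotOptimal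

open Pool.Agent.RdvTour

/-- For all large `n = m + 2`: `R_n ≤ 0.82883 n`, and `𝔼[T] ≥ 0.82888 n` for every random stay-or-tour
strategy, whatever the law `D` of its decisions. -/
theorem result : ∃ m₀ : ℕ, ∀ m : ℕ, m₀ ≤ m →
    value (m + 2) ≤ ENNReal.ofReal (0.82883 * ((m : ℝ) + 2)) ∧
    ∀ (D : Measure (ℕ → Bool)) [IsProbabilityMeasure D],
      ENNReal.ofReal (0.82888 * ((m : ℝ) + 2)) ≤ expTime (m + 2) (tourLaw m D) :=
  H50R.main

end Pool.Agent.Results.MP_5ce2f9_pr.AsymptoticallyNotOptimal
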