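import Pool.Agent.Lib.Rdv.FinalLB

/-!
# A lower bound for the symmetric rendezvous value: `R_n ≥ 0.64 n` for every `n ≥ 4`

With a common labelling of roles (asymmetric strategies) the players can meet in `(n + 1) / 2`
days on average, which gives the trivial bound `R_n ≥ (n + 1) / 2`. We show that the requirement
that both players use the same strategy costs a positive proportion: every symmetric strategy has
`E[T] ≥ 0.64 n`. (The best strategies known have `E[T] ~ 0.829 n`.)

Method: for two label sequences `x`, `y` of length `t ≤ 1.4 n` the probability, over the random
labellings, of no meeting is at least
`1 - t / n + Q / (n t) + (β / 2) Δ`, `β = (1 - t / (3 n)) / n²`,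
where `Q` counts the ordered pairs of different days on which both players repeat their label and
`Δ` those on which both change it (third order Bonferroni inequality for random permutations). If
`a` is the probability that a player uses the same label on days `s` and `s'`, then, both players
being independent copies of each other, the expectation of the pair's contribution is
`a² / (n t) + (β / 2) (1 - a)²`, which is bounded below uniformly in `a`.
-/

set_option autoImplicit false

namespace Pool.Agent.Results.MP_5ce2f9_pr.LowerBound

open Pool.Agent.Rdv

/-- Every symmetric strategy on `n ≥ 4` locations has `E[T] ≥ 0.64 n`. -/
theorem result (n : ℕ) (hn : 4 ≤ n) (S : Strategy n) :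
    ENNReal.ofReal (16 / 25 * n) ≤ S.expectedTime :=
  lower_bound hn S

end Pool.Agent.Results.MP_5ce2f9_pr.LowerBound
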