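import Pool.Agent.Lib.RdvExist.Main

/-!
# Symmetric rendezvous on `n` locations: an optimal strategy exists

Definitions (in `Pool.Agent.Lib.RdvTour.Defs`):

* a strategy is given by the probability law `μ` on `ℕ → Fin n` of the sequence of labels used
  (time `t` is day `t + 1`);
* `expTime n μ` is the expected meeting time `𝔼[T]` when both players use `μ` independently and the two
  private labellings are independent and uniform;
* `value n` is `R_n`, the infimum of `expTime n μ` over all probability laws `μ`.

For every `n ≥ 1` the infimum `R_n` is finite (at most `n`) and attained.  The proof: the space of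
probability laws on `ℕ → Fin n` is compact for the weak topology, and `𝔼[T]` is a sum of continuous
nonnegative functions, hence lower semicontinuous.
-/

set_option autoImplicit false

open MeasureTheory
open scoped ENNReal

namespace Pool.Agent.Results.MP_5ce2f9_pr.OptimalExists

open Pool.Agent.RdvTour

/-- For every `n ≥ 1` some symmetric strategy attains `R_n`, and its expected meeting time is at most `n`. -/
theorem result (n : ℕ) (hn : 1 ≤ n) :
    ∃ μ : Measure (ℕ → Fin n), IsProbabilityMeasure μ ∧ expTime n μ = value n ∧ expTime n μ ≤ n := by
  obtain ⟨μ, hμ, h⟩ := RdvExist.exists_optimal n hn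
  exact ⟨μ, hμ, h, h ▸ RdvExist.value_le hn⟩

end Pool.Agent.Results.MP_5ce2f9_pr.OptimalExists
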