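import Pool.Agent.Lib.RdvTour.Main

/-!
# Symmetric rendezvous on `n` locations: `AW(n)` is not optimal for any `n ≥ 4`

Definitions (in `Pool.Agent.Lib.RdvTour.Defs` and `Pool.Agent.Lib.RdvTour.TourDefs`):

* a strategy is given by the probability law `μ` on `ℕ → Fin n` of the sequence of labels used
  (time `t` is day `t + 1`);
* `expTime n μ` is the expected meeting time `𝔼[T]` and `survival n μ t` is `ℙ[T > t]`, when both
  players use `μ` independently and the two private labellings are independent and uniform;
* `value n` is `R_n`, the infimum of `expTime n μ` over all probability laws `μ`;
* `tourLaw m D` is the strategy on `n = m + 2` locations which starts at a uniformly random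
  location and in each block of `n - 1 = m + 1` days either stays or visits the other `n - 1`
  locations in uniformly random order (independently for all blocks), where the sequence of the
  decisions (`true` for a tour) has law `D` and is independent of the locations. If `D` makes the
  decisions independent and equal to `true` with probability `p`, this is `AW(n)` with
  parameter `p`.
-/

set_option autoImplicit false

open MeasureTheory
open scoped ENNReal

namespace Pool.Agent.Results.MP_5ce2f9_pr.TouringNotOptimal

open Pool.Agent.RdvTour

/-- For every `n = m + 2 ≥ 4` and every law `D` of the stay-or-tour decisions, the strategy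
`tourLaw m D` is not optimal: `R_n < 𝔼[T]`. If its `𝔼[T]` is finite, then some strategy has
`ℙ[T > t]` at most as large for every `t`, and a strictly smaller `𝔼[T]`. -/
theorem result (m : ℕ) (hm : 2 ≤ m) (D : Measure (ℕ → Bool)) [IsProbabilityMeasure D] :
    value (m + 2) < expTime (m + 2) (tourLaw m D) ∧
      (expTime (m + 2) (tourLaw m D) < ⊤ →
        ∃ ν : Measure (ℕ → Fin (m + 2)), IsProbabilityMeasure ν ∧
          (∀ t, survival (m + 2) ν t ≤ survival (m + 2) (tourLaw m D) t) ∧
          expTime (m + 2) ν < expTime (m + 2) (tourLaw m D)) :=
  main m hm D

end Pool.Agent.Results.MP_5ce2f9_pr.TouringNotOptimal
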